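import Pool.Agent.Helper478_Bases.Diag

/-!
# In almost every base the first digits of all algebraic irrational numbers are equidistributed

There is an absolute constant `κ` such that for almost all bases `r` the first `n` digits in base `r` of
every algebraic irrational number, for all `n` between a bound tending to infinity as slowly as one
likes and `(log r) ^ (1 / κ)`, are equidistributed: the discrepancy of `x r, x r ^ 2, …, x r ^ n` modulo
one tends to zero. The number of the exceptional bases up to `R` is exponentially small in `n`, uniformly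
over the algebraic numbers `x` of bounded degree whose height is at most exponential in `n`.

Proof. For fixed `x` the products `∏_{i ≤ n} (1 + λ cos (2π (h x r ^ i + φ)))` have mean value at most
`2` over the bases `r ≤ R`: after expanding, each term but the constant one is a Weyl sum in `r` over a
polynomial of degree at most `n` with leading coefficient `± h x`. By Liouville's inequality this
coefficient is badly approximable to a certain extent, and Vinogradov's mean value theorem (applied to a
bilinear form, so that only the leading coefficient matters) shows that the Weyl sums are at most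
`R exp (- 2 n)`. Hence large deviations of the exponential sums `∑_{i ≤ n} exp (2π i h x r ^ i)` occur
for at most `R exp (- c n)` bases `r ≤ R`. This beats the number of the algebraic numbers in question.
-/

set_option autoImplicit false

open Filter Topology Polynomial

namespace Pool.Agent.Results.MP_f2f914_nt.AlmostAllBases

/-- The discrepancy of the first `n` points `x r ^ i`, `1 ≤ i ≤ n`, modulo one is at most `ε`: for all
intervals `[α, β)` in `[0, 1]` the number of `1 ≤ i ≤ n` for which the fractional part of `x r ^ i` lies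
in `[α, β)` differs from `(β - α) n` by at most `ε n`. -/
def DiscrepancyAtMost (r n : ℕ) (ε x : ℝ) : Prop :=
  ∀ α β : ℝ, 0 ≤ α → α < β → β ≤ 1 →
    |(({i : ℕ | 1 ≤ i ∧ i ≤ n ∧ α ≤ Int.fract (x * (r : ℝ) ^ i) ∧
      Int.fract (x * (r : ℝ) ^ i) < β}.ncard : ℕ) : ℝ) - (β - α) * n| ≤ ε * n

/-- The irrational real algebraic numbers of degree at most `d` whose minimal polynomial over the
integers has coefficients of absolute value at most `H`. -/
def BoundedAlgebraic (d : ℕ) (H : ℝ) : Set ℝ :=
  {x | Irrational x ∧ ∃ P : ℤ[X], Irreducible P ∧ P.natDegree ≤ d ∧ (∀ i, |(P.coeff i : ℝ)| ≤ H) ∧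
    aeval x P = 0}

/-- There is an absolute constant `κ` with the following properties.
(1) For all `d ≥ 1` and `ε > 0` there are `c > 0` and `N₀` such that for all `N ≥ N₀` and all `R` all
but at most `exp (- c N) R` of the bases `r ≤ R` are such that all irrational algebraic numbers `x` of
degree at most `d` and height at most `exp (c N)` have the property that for all `n ≥ N` with
`n ^ κ ≤ log R` the discrepancy of `x r, x r ^ 2, …, x r ^ n` modulo one is at most `ε`.
(2) For every function `g` tending to infinity there is a set `𝓑` of natural density one such that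
for every irrational real algebraic number `x` and every `ε > 0`, for all large `r ∈ 𝓑`, the discrepancy
of `x r, x r ^ 2, …, x r ^ n` modulo one is at most `ε` for all `n ≥ g r` with `n ^ κ ≤ log r`. -/
theorem result : ∃ κ : ℕ, 1 ≤ κ ∧
    (∀ d : ℕ, 1 ≤ d → ∀ ε : ℝ, 0 < ε → ∃ c : ℝ, 0 < c ∧ ∃ N₀ : ℕ, ∀ N R : ℕ, N₀ ≤ N →
      (({r : ℕ | 1 ≤ r ∧ r ≤ R ∧ ∃ x ∈ BoundedAlgebraic d (Real.exp (c * N)), ∃ n : ℕ, N ≤ n ∧
        (n : ℝ) ^ κ ≤ Real.log R ∧ ¬ DiscrepancyAtMost r n ε x}.ncard : ℕ) : ℝ) ≤
          Real.exp (-(c * N)) * R) ∧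
    (∀ g : ℕ → ℕ, Tendsto g atTop atTop → ∃ 𝓑 : Set ℕ,
      Tendsto (fun R : ℕ => (({r : ℕ | 1 ≤ r ∧ r ≤ R ∧ r ∈ 𝓑}.ncard : ℕ) : ℝ) / R) atTop (𝓝 1) ∧
      ∀ x : ℝ, Irrational x → IsAlgebraic ℚ x → ∀ ε : ℝ, 0 < ε → ∀ᶠ r : ℕ in atTop, r ∈ 𝓑 →
        ∀ n : ℕ, g r ≤ n → (n : ℝ) ^ κ ≤ Real.log r → DiscrepancyAtMost r n ε x) := by
  obtain ⟨κ, h1, h2, h3⟩ := Pool.Agent.Helper478.Bases.main
  refine ⟨κ, h1, h2, fun g hg => ?_⟩
  obtain ⟨𝓑, h4, h5⟩ := h3 g hg
  exact ⟨𝓑, h4, fun x hx ha ε hε => h5 x hx ((IsFractionRing.isAlgebraic_iff ℤ ℚ ℝ).2 ha) ε hε⟩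

end Pool.Agent.Results.MP_f2f914_nt.AlmostAllBases
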