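import Pool.Agent.Helper478_Surds.Fin

/-!
# More than logarithmically many digits of almost all the numbers `x n ^ θ`, in all bases at once

For instance (`x = 1`, `θ = 1 / 2`): for all but at most `N exp (- √(log N))` of the integers
`N < n ≤ 2 N` the expansions of `√n` in all bases `b ≥ 2` have the following property: every block of
at least `(log N) ^ (1 - γ)` consecutive digits (even: every block of points `√n b ^ i`) among the first
`(log N) ^ (1 + γ) / log b` ones has discrepancy at most `ε`. Here `γ > 0` is an absolute constant. The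
same holds for `x n ^ θ` with any real `x ≠ 0` (for instance algebraic) and `-1 ≤ θ < 1`, `θ ≠ 0` (for
instance rational), from the place on where `b ^ i n ^ θ` exceeds a small power of `n`; for `θ = -1`
these are the numbers `x / n`, which are normal in base `b` if and only if `x` is.

The integer `n` has only about `log N` bits, but the digits are controlled up to the place
`(log N) ^ (1 + γ)`.

Proof. The products `∏_{i ≤ k} (1 + λ cos (2π (h x b ^ (u + i) n ^ θ + φ)))` with `k ≤ 2 (log N) ^ (1 - 3γ)`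
have mean value at most `2` over `N < n ≤ 2 N`: after expanding, each term but the constant one is an
exponential sum `∑ e (F n ^ θ)`, and Vinogradov's mean value theorem (with many variables) and the method
of Vinogradov and Korobov give a saving of `exp (2 (log N) ^ (1 - 3γ))` for these as long as
`N ^ δ ≤ F N ^ θ ≤ exp ((log N) ^ (1 + 2γ))`. This gives large deviation bounds for short blocks, and these are
added up over all blocks and bases.
-/

set_option autoImplicit false

namespace Pool.Agent.Results.MP_f2f914_nt.AlmostAllSurds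

/-- The discrepancy of the points `y b ^ i`, `u < i ≤ v`, modulo one is at most `ε`: for all
intervals `[α, β)` in `[0, 1]` the number of `u < i ≤ v` for which the fractional part of `y b ^ i` lies
in `[α, β)` differs from `(β - α) (v - u)` by at most `ε (v - u)`. -/
def DiscrepancyAtMost (y : ℝ) (b u v : ℕ) (ε : ℝ) : Prop :=
  ∀ α β : ℝ, 0 ≤ α → α < β → β ≤ 1 →
    |(({i : ℕ | u < i ∧ i ≤ v ∧ α ≤ Int.fract (y * (b : ℝ) ^ i) ∧
      Int.fract (y * (b : ℝ) ^ i) < β}.ncard : ℕ) : ℝ) - (β - α) * ((v : ℝ) - u)| ≤ ε * ((v : ℝ) - u)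

/-- There is an absolute constant `γ > 0` such that for all real `-1 ≤ θ < 1`, `θ ≠ 0`, and `x ≠ 0`
(in particular for all rational such `θ` and algebraic `x`) and all `δ, ε > 0` there is an `N₀` such that
for all `N ≥ N₀`, for all but at most `N exp (- √(log N))` of the integers `N < n ≤ 2 N` the number
`y = x n ^ θ` has this property: for all bases `b ≥ 2` and all `u`, `v` with `(log N) ^ (1 - γ) ≤ v - u`,
`v log b ≤ (log N) ^ (1 + γ)` and `N ^ δ ≤ b ^ u N ^ θ` (which is automatic if `δ ≤ θ`)
the discrepancy of the points `y b ^ i`, `u < i ≤ v`, modulo one is at most `ε`. -/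
theorem result : ∃ γ : ℝ, 0 < γ ∧ ∀ θ : ℝ, -1 ≤ θ → θ < 1 → θ ≠ 0 → ∀ x : ℝ, x ≠ 0 →
    ∀ δ : ℝ, 0 < δ → ∀ ε : ℝ, 0 < ε → ∃ N₀ : ℕ, ∀ N : ℕ, N₀ ≤ N →
      (({n : ℕ | N < n ∧ n ≤ 2 * N ∧ ∃ b u v : ℕ, 2 ≤ b ∧ (Real.log N) ^ (1 - γ) ≤ (v : ℝ) - u ∧
        v * Real.log b ≤ (Real.log N) ^ (1 + γ) ∧ (N : ℝ) ^ δ ≤ (b : ℝ) ^ u * (N : ℝ) ^ θ ∧
        ¬ DiscrepancyAtMost (x * (n : ℝ) ^ θ) b u v ε}.ncard : ℕ) : ℝ) ≤
          N * Real.exp (-√(Real.log N)) := by
  obtain ⟨γ, h1, _, h⟩ := Pool.Agent.Helper478.Surds.surds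
  exact ⟨γ, h1, h⟩

end Pool.Agent.Results.MP_f2f914_nt.AlmostAllSurds
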