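import Pool.Agent.Helper478_Kwise.E

/-!
# The digits of `x m ^ θ` at few places are almost independent for random `m`

For a random integer `m` in `(N, 2 N]` the base `B` digits of `√m` at any `k ≤ (log N) ^ (3 / 4)` places among
the first `(log N) ^ (1 + γ) / log B` ones are almost independent and uniformly distributed: each
pattern of digits has the probability `B ^ (-k)` up to an error of at most `exp (- (log N) ^ (3 / 4))`. Here
`γ > 0` is an absolute constant; the bound is uniform in the base and in the places. The same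
holds for the numbers `x m ^ θ`, `-1 ≤ θ < 1`, `θ ≠ 0`, with a real number `x` (for instance
algebraic) which may depend on `N`, from the place on where `|x| m ^ θ B ^ i` exceeds a small power of `N`.

The integer `m` has only about `log N` bits, but the places go up to `(log N) ^ (1 + γ) / log B`.

Proof. The indicator functions of the digits are replaced by trigonometric polynomials of degree
`exp (2 (log N) ^ (1 - 3 γ))` with small absolute sums of the coefficients; after multiplying out one has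
exponential sums `∑ e (F m ^ θ)` with `F N ^ θ ≤ exp ((log N) ^ (1 + 2 γ))`, for which Vinogradov's mean
value theorem (with many variables) and the method of Vinogradov and Korobov save a factor
`exp (2 (log N) ^ (1 - 3 γ))`. The main term is computed exactly with the points `a / B ^ T'`.
-/

set_option autoImplicit false

namespace Pool.Agent.Results.MP_f2f914_nt.IndependentDigitsOfSurds

/-- The base `B` digit of the real number `y` at the place `i` after the point (for `y ≥ 0`). -/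
noncomputable def digit (B : ℕ) (y : ℝ) (i : ℕ) : ℤ := ⌊y * (B : ℝ) ^ i⌋ % B

/-- There is an absolute constant `γ > 0` such that for all real `-1 ≤ θ < 1`, `θ ≠ 0`, and `δ > 0` there is an
`N₀` such that for all `N ≥ N₀`, all real `x`, all bases `B ≥ 2` and all `T` with `N ^ δ ≤ |x| N ^ θ` and
`|x| N ^ θ B ^ T ≤ exp ((log N) ^ (1 + γ))`, for all sets `I` of at most `(log N) ^ (3 / 4)` places
`1 ≤ i ≤ T` and all digits `w i`, `i ∈ I`, the number of the integers `N < m ≤ 2 N` for which the digit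
of `x m ^ θ` at the place `i` is `w i` for all `i ∈ I` differs from `N / B ^ |I|` by at most
`N exp (- (log N) ^ (3 / 4))`. -/
theorem result : ∃ γ : ℝ, 0 < γ ∧ ∀ θ : ℝ, -1 ≤ θ → θ < 1 → θ ≠ 0 → ∀ δ : ℝ, 0 < δ →
    ∃ N₀ : ℕ, ∀ N : ℕ, N₀ ≤ N → ∀ x : ℝ, ∀ B T : ℕ, 2 ≤ B → (N : ℝ) ^ δ ≤ |x| * (N : ℝ) ^ θ →
      |x| * (N : ℝ) ^ θ * (B : ℝ) ^ T ≤ Real.exp ((Real.log N) ^ (1 + γ)) →
      ∀ I : Finset ℕ, (∀ i ∈ I, 1 ≤ i ∧ i ≤ T) → (I.card : ℝ) ≤ (Real.log N) ^ (3 / 4 : ℝ) →
      ∀ w : ℕ → ℕ, (∀ i ∈ I, w i < B) →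
      |(({m : ℕ | N < m ∧ m ≤ 2 * N ∧ ∀ i ∈ I, digit B (x * (m : ℝ) ^ θ) i = w i}.ncard : ℕ) : ℝ) -
        N / (B : ℝ) ^ I.card| ≤ N * Real.exp (-(Real.log N) ^ (3 / 4 : ℝ)) := by
  classical
  obtain ⟨γ, h1, _, h⟩ := Pool.Agent.Helper478.Kwise.kwi
  refine ⟨γ, h1, fun θ a1 a2 a3 δ hδ => ?_⟩
  obtain ⟨N₀, hN₀⟩ := h θ a1 a2 a3 δ hδ
  refine ⟨N₀, fun N hN x B T hB hx1 hx2 I hI hIc w hw => ?_⟩
  have h2 := hN₀ N hN N le_rfl x B T hB hx1 hx2 I (fun i hi => Finset.mem_Icc.2 (hI i hi)) hIc w hw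
  have h3 : {m : ℕ | N < m ∧ m ≤ 2 * N ∧ ∀ i ∈ I, digit B (x * (m : ℝ) ^ θ) i = w i}.ncard =
      ((Finset.Ioc 0 N).filter fun n : ℕ => ∀ i ∈ I,
        Pool.Agent.Helper478.Kwise.dg B (x * ((N + n : ℕ) : ℝ) ^ θ) i = w i).card := by
    rw [← Set.ncard_coe_finset]
    have h4 : {m : ℕ | N < m ∧ m ≤ 2 * N ∧ ∀ i ∈ I, digit B (x * (m : ℝ) ^ θ) i = w i} =
        (fun n => N + n) '' (((Finset.Ioc 0 N).filter fun n : ℕ => ∀ i ∈ I,
        Pool.Agent.Helper478.Kwise.dg B (x * ((N + n : ℕ) : ℝ) ^ θ) i = w i : Finset ℕ) : Set ℕ) := by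
      ext m
      simp only [Set.mem_ofPred_eq, Set.mem_image, Finset.coe_filter, Finset.mem_Ioc]
      constructor
      · rintro ⟨b1, b2, b3⟩
        refine ⟨m - N, ⟨⟨by omega, by omega⟩, ?_⟩, by omega⟩
        rw [show N + (m - N) = m by omega]
        exact b3
      · rintro ⟨n, ⟨⟨b1, b2⟩, b3⟩, rfl⟩
        exact ⟨by omega, by omega, b3⟩
    rw [h4, Set.ncard_image_of_injective _ (fun a b h => by simpa using h)]
  rw [h3]
  exact h2

end Pool.Agent.Results.MP_f2f914_nt.IndependentDigitsOfSurds
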