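import Pool.Agent.Helper478_Shift.Quad
import Pool.Agent.Helper478_Shift.Count

/-!
# The digits of almost all real quadratic numbers, in all integer bases
-/

set_option autoImplicit false

namespace Pool.Agent.Results.MP_f2f914_nt.QuadraticIrrationals

open Pool.Agent.Helper478.Shift
open Pool.Agent.Helper478.Surds (EquiW ev_pow)
open Filter

theorem result : ∃ γ : ℝ, 0 < γ ∧ ∀ δ : ℝ, 0 < δ → ∀ ε : ℝ, 0 < ε → ∃ H₀ : ℕ, ∀ H : ℕ, H₀ ≤ H →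
    (({t : ℤ × ℤ × ℤ | |(t.1 : ℝ)| ≤ H ∧ |(t.2.1 : ℝ)| ≤ H ∧ |(t.2.2 : ℝ)| ≤ H ∧ t.1 ≠ 0 ∧
      ∃ ξ : ℝ, (t.1 : ℝ) * ξ ^ 2 + t.2.1 * ξ + t.2.2 = 0 ∧ ∃ r u v : ℕ, 2 ≤ r ∧
        (Real.log H) ^ (1 - γ) ≤ (v : ℝ) - u ∧ v * Real.log r ≤ (Real.log H) ^ (1 + γ) ∧
        (H : ℝ) ^ δ ≤ (r : ℝ) ^ u ∧ ¬ EquiW ξ r u v ε}.ncard : ℕ) : ℝ) ≤
      (H : ℝ) ^ 3 * Real.exp (-(Real.log H) ^ (1 / 3 : ℝ)) := by
  obtain ⟨γ, hγ0, hγ1, hq⟩ := quad_fiber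
  refine ⟨γ, hγ0, ?_⟩
  intro δ hδ ε hε
  obtain ⟨H₁, hH₁⟩ := hq δ hδ ε hε
  have ev1 : ∀ᶠ y : ℝ in atTop, 8 * y ^ (2 / 5 : ℝ) ≤ y ^ (1 : ℝ) := ev_pow _ _ _ (by norm_num)
  have ev2 : ∀ᶠ y : ℝ in atTop, 6 * y ^ (1 / 3 : ℝ) ≤ y ^ (2 / 5 : ℝ) := ev_pow _ _ _ (by norm_num)
  have hlog : Tendsto (fun N : ℕ => Real.log N) atTop atTop :=
    Real.tendsto_log_atTop.comp tendsto_natCast_atTop_atTop
  have hev := hlog.eventually ((ev1.and ev2).and (eventually_ge_atTop 10))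
  obtain ⟨H₀, hH₀⟩ := eventually_atTop.1 (hev.and (eventually_ge_atTop (max H₁ 2)))
  refine ⟨H₀, ?_⟩
  intro H hH
  obtain ⟨⟨⟨q1, q4⟩, q2⟩, q3⟩ := hH₀ H hH
  have hHH₁ : H₁ ≤ H := (le_max_left _ _).trans q3
  have hH2 : 2 ≤ H := (le_max_right _ _).trans q3
  obtain ⟨T, hT⟩ : ∃ T : ℝ, T = H * Real.exp (-(Real.log H) ^ (2 / 5 : ℝ)) := ⟨_, rfl⟩
  have hfib := fun a b h1 h2 h3 => hH₁ H a b hHH₁ h1 h2 h3
  rw [← hT] at hfib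
  have hH0 : (0 : ℝ) < H := by exact_mod_cast (by omega : 0 < H)
  have hT1 : 1 ≤ T := by
    rw [hT]
    nth_rewrite 1 [← Real.exp_log hH0]
    rw [← Real.exp_add]
    apply Real.one_le_exp
    rw [Real.rpow_one] at q1
    have : 0 ≤ (Real.log H) ^ (2 / 5 : ℝ) := Real.rpow_nonneg (by linarith) _
    linarith
  have hI : ∀ c : ℤ, |(c : ℝ)| ≤ H ↔ c ∈ Finset.Icc (-(H : ℤ)) H := by
    intro c
    rw [Finset.mem_Icc, abs_le]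
    constructor
    · rintro ⟨h1, h2⟩
      exact ⟨by exact_mod_cast h1, by exact_mod_cast h2⟩
    · rintro ⟨h1, h2⟩
      exact ⟨by exact_mod_cast h1, by exact_mod_cast h2⟩
  obtain ⟨I, hIdef⟩ : ∃ I : Finset ℤ, I = Finset.Icc (-(H : ℤ)) H := ⟨_, rfl⟩
  have hIc : (I.card : ℝ) ≤ 3 * H := by rw [hIdef]; exact card_box H (by omega)
  simp only [← hIdef] at hI
  have h3H : (2 * H + 1 : ℝ) ≤ 3 * H := by
    have : (2 : ℝ) ≤ H := by exact_mod_cast hH2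
    linarith
  -- the exceptional leading coefficients
  have hE : ((({o : ℤ × ℤ | o ∈ I ×ˢ I ∧ |(o.1 : ℝ)| < T}).ncard : ℕ) : ℝ) ≤ 3 * T * (3 * H) := by
    have hfin : {a : ℤ | |(0 : ℝ) + (a : ℝ)| < T}.Finite := by
      apply (Finset.finite_toSet (Finset.Icc ⌈-T⌉ ⌊T⌋)).subset
      intro a ha
      simp only [Set.mem_setOf_eq, zero_add, abs_lt] at ha
      rw [Finset.mem_coe, Finset.mem_Icc]
      exact ⟨Int.ceil_le.2 (by linarith [ha.1]), Int.le_floor.2 (by linarith [ha.2])⟩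
    have hsub : {o : ℤ × ℤ | o ∈ I ×ˢ I ∧ |(o.1 : ℝ)| < T} ⊆
        {a : ℤ | |(0 : ℝ) + (a : ℝ)| < T} ×ˢ (I : Set ℤ) := by
      rintro ⟨a, b⟩ ⟨h1, h2⟩
      rw [Finset.mem_product] at h1
      exact ⟨by simpa using h2, h1.2⟩
    have h1 := Set.ncard_le_ncard hsub (hfin.prod (Finset.finite_toSet I))
    rw [Set.ncard_prod, Set.ncard_coe_finset] at h1
    have h2 := card_small T hT1 0
    calc ((({o : ℤ × ℤ | o ∈ I ×ˢ I ∧ |(o.1 : ℝ)| < T}).ncard : ℕ) : ℝ) ≤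
          (({a : ℤ | |(0 : ℝ) + (a : ℝ)| < T}.ncard : ℕ) : ℝ) * (I.card : ℝ) := by exact_mod_cast h1
      _ ≤ 3 * T * (3 * H) := by gcongr
  have htl := two_level (I ×ˢ I) (fun o : ℤ × ℤ => |(o.1 : ℝ)| < T)
    (fun o c => ∃ ξ : ℝ, (o.1 : ℝ) * ξ ^ 2 + o.2 * ξ + c = 0 ∧ BadW H δ γ ε ξ) H (5 * T) (by linarith)
    (3 * T * (3 * H)) hE (by
      rintro ⟨a, b⟩ ho hexc
      rw [Finset.mem_product] at ho
      simp only [not_lt] at hexc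
      exact hfib a b hexc ((hI a).2 ho.1) ((hI b).2 ho.2))
  have hsub : {t : ℤ × ℤ × ℤ | |(t.1 : ℝ)| ≤ H ∧ |(t.2.1 : ℝ)| ≤ H ∧ |(t.2.2 : ℝ)| ≤ H ∧ t.1 ≠ 0 ∧
      ∃ ξ : ℝ, (t.1 : ℝ) * ξ ^ 2 + t.2.1 * ξ + t.2.2 = 0 ∧ ∃ r u v : ℕ, 2 ≤ r ∧
        (Real.log H) ^ (1 - γ) ≤ (v : ℝ) - u ∧ v * Real.log r ≤ (Real.log H) ^ (1 + γ) ∧
        (H : ℝ) ^ δ ≤ (r : ℝ) ^ u ∧ ¬ EquiW ξ r u v ε} ⊆
      (fun t : (ℤ × ℤ) × ℤ => (t.1.1, t.1.2, t.2)) '' {t : (ℤ × ℤ) × ℤ | t.1 ∈ I ×ˢ I ∧ |(t.2 : ℝ)| ≤ H ∧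
        ∃ ξ : ℝ, (t.1.1 : ℝ) * ξ ^ 2 + t.1.2 * ξ + t.2 = 0 ∧ BadW H δ γ ε ξ} := by
    rintro ⟨a, b, c⟩ ⟨h1, h2, h3, -, ξ, h4, h5⟩
    refine ⟨((a, b), c), ⟨?_, h3, ξ, h4, h5⟩, rfl⟩
    rw [Finset.mem_product]
    exact ⟨(hI a).1 h1, (hI b).1 h2⟩
  have hfin : {t : (ℤ × ℤ) × ℤ | t.1 ∈ I ×ˢ I ∧ |(t.2 : ℝ)| ≤ H ∧
        ∃ ξ : ℝ, (t.1.1 : ℝ) * ξ ^ 2 + t.1.2 * ξ + t.2 = 0 ∧ BadW H δ γ ε ξ}.Finite := by
    apply (Finset.finite_toSet ((I ×ˢ I) ×ˢ I)).subset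
    rintro ⟨o, c⟩ ⟨h1, h2, -⟩
    rw [Finset.mem_coe, Finset.mem_product]
    exact ⟨h1, (hI c).1 h2⟩
  have h1 := (Set.ncard_le_ncard hsub (hfin.image _)).trans (Set.ncard_image_le hfin)
  refine le_trans (by exact_mod_cast h1) (htl.trans ?_)
  have hcard : (((I ×ˢ I).card : ℕ) : ℝ) ≤ 9 * (H : ℝ) ^ 2 := by
    rw [Finset.card_product]
    push_cast
    nlinarith [(Nat.cast_nonneg I.card : (0 : ℝ) ≤ (I.card : ℝ))]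
  have hexp : Real.exp (-(Real.log H) ^ (2 / 5 : ℝ)) * Real.exp 5 ≤
      Real.exp (-(Real.log H) ^ (1 / 3 : ℝ)) := by
    rw [← Real.exp_add, Real.exp_le_exp]
    have : 1 ≤ (Real.log H) ^ (1 / 3 : ℝ) := Real.one_le_rpow (by linarith) (by norm_num)
    linarith
  have hexp5 : (72 : ℝ) ≤ Real.exp 5 := by
    have h3 : Real.exp 5 = Real.exp 1 ^ 5 := by rw [← Real.exp_nat_mul]; norm_num
    have h4 := Real.exp_one_gt_d9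
    rw [h3]
    calc (72 : ℝ) ≤ 2.7 ^ 5 := by norm_num
      _ ≤ Real.exp 1 ^ 5 := pow_le_pow_left₀ (by norm_num) (by linarith) 5
  calc 3 * T * (3 * H) * (2 * H + 1) + ((I ×ˢ I).card : ℝ) * (5 * T) ≤
        3 * T * (3 * H) * (3 * H) + (9 * (H : ℝ) ^ 2) * (5 * T) := by gcongr
    _ = (H : ℝ) ^ 3 * (Real.exp (-(Real.log H) ^ (2 / 5 : ℝ)) * 72) := by rw [hT]; ring
    _ ≤ (H : ℝ) ^ 3 * (Real.exp (-(Real.log H) ^ (2 / 5 : ℝ)) * Real.exp 5) := by gcongr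
    _ ≤ _ := by gcongr

end Pool.Agent.Results.MP_f2f914_nt.QuadraticIrrationals
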